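import Pool.Agent.H37.CTP.Stmts
import Pool.Agent.H14.CND.TOT
import Pool.Agent.H1.CTN.FN3

/-!
# Row R33 of the board `ctp`: no proper stable subspace contains `e_0`

The product of the roots `x_u`, `u ∉ U`, is fixed by the group, and it and its inverse are integral
over `k[t]`; so it is a constant. But all its factors have negative order at `P`.
-/

set_option autoImplicit false

namespace Pool.CND

open Finset Polynomial

namespace R33a

open FN3a

variable {k F L : Type} [Field k] [Field F] [Algebra F k] [Field L] [Algebra k L]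

theorem rel_xv {f q s : ℕ} [Finite F] (hc : CharP k 2) (hq : q = 2 ^ f)
    (hF : Nat.card F = q) {t : L} {X : Fin (s + 3) → L}
    (hS : RRoots k F L q s t X) (u : Fin (s + 3) → F) :
    xv k X u ^ q ^ (s + 3) + t ^ ((q - 1) * (q ^ (s + 1) - 2)) * xv k X u ^ q ^ (s + 2) +
      t ^ (q * (q ^ (s + 1) - 2) - 1) * xv k X u ^ q + xv k X u = 0 := by
  have : Fact (Nat.Prime 2) := ⟨Nat.prime_two⟩
  have : CharP L 2 := charP_of_injective_algebraMap (algebraMap k L).injective 2
  have hpow : ∀ m', xv k X u ^ q ^ m' = ∑ i, cst k F L (u i) * X i ^ q ^ m' := by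
    intro m'
    unfold xv
    have h1 := sum_pow_char_pow 2 (f * m') (univ : Finset (Fin (s + 3)))
      (fun i => cst k F L (u i) * X i)
    rw [pow_mul, ← hq] at h1
    rw [h1]
    refine sum_congr rfl fun i _ => ?_
    rw [mul_pow, cst_pow hF]
  have h1 := hpow 1
  rw [pow_one] at h1
  rw [hpow (s + 3), hpow (s + 2), h1, mul_sum, mul_sum]
  unfold xv
  rw [← sum_add_distrib, ← sum_add_distrib, ← sum_add_distrib]
  refine sum_eq_zero fun i _ => ?_
  have := hS.rel i
  linear_combination (cst k F L (u i)) * this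

/-- `x_u` and its inverse are integral over `k[t]` -/
theorem integ {f q s : ℕ} [Finite F] (hc : CharP k 2) (hf : 1 ≤ f) (hq : q = 2 ^ f)
    (hF : Nat.card F = q) {t : L} {X : Fin (s + 3) → L}
    (hS : RRoots k F L q s t X) (u : Fin (s + 3) → F) (hu : xv k X u ≠ 0) :
    (aeval t : Polynomial k →ₐ[k] L).toRingHom.IsIntegralElem (xv k X u) ∧
    (aeval t : Polynomial k →ₐ[k] L).toRingHom.IsIntegralElem (xv k X u)⁻¹ := by
  have hq2 : 2 ≤ q := by
    rw [hq]
    calc 2 = 2 ^ 1 := (pow_one 2).symm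
      _ ≤ 2 ^ f := Nat.pow_le_pow_right (by norm_num) hf
  have hrel := rel_xv hc hq hF hS u
  set x := xv k X u with hx
  set α := (q - 1) * (q ^ (s + 1) - 2) with hα
  set β := q * (q ^ (s + 1) - 2) - 1 with hβ
  have h32 : q ^ (s + 2) < q ^ (s + 3) := Nat.pow_lt_pow_right hq2 (by omega)
  have h12 : q < q ^ (s + 2) := by
    calc q = q ^ 1 := (pow_one q).symm
      _ < q ^ (s + 2) := Nat.pow_lt_pow_right hq2 (by omega)
  have h1 : (aeval t : Polynomial k →ₐ[k] L).toRingHom.IsIntegralElem x := by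
    refine ⟨Polynomial.X ^ q ^ (s + 3) + (C (Polynomial.X ^ α : Polynomial k) *
      Polynomial.X ^ q ^ (s + 2) + C (Polynomial.X ^ β : Polynomial k) * Polynomial.X ^ q +
      Polynomial.X), ?_, ?_⟩
    · refine monic_X_pow_add ?_
      have h3 : 1 < q ^ (s + 3) := by omega
      refine lt_of_le_of_lt (degree_add_le _ _) (max_lt ?_ ?_)
      · refine lt_of_le_of_lt (degree_add_le _ _) (max_lt ?_ ?_)
        · exact lt_of_le_of_lt (degree_C_mul_X_pow_le _ _) (by exact_mod_cast h32)
        · exact lt_of_le_of_lt (degree_C_mul_X_pow_le _ _) (by exact_mod_cast h12.trans h32)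
      · exact lt_of_le_of_lt degree_X_le (by exact_mod_cast h3)
    · simp only [eval₂_add, eval₂_mul, eval₂_pow, eval₂_X, eval₂_C]
      rw [← hrel]
      simp only [AlgHom.toRingHom_eq_coe, RingHom.coe_coe, map_pow, aeval_X]
      ring
  refine ⟨h1, ?_⟩
  let _ : Algebra (Polynomial k) L := (aeval t : Polynomial k →ₐ[k] L).toRingHom.toAlgebra
  have hX' : IsIntegral (Polynomial k) x := h1
  have ht : IsIntegral (Polynomial k) t := by
    have h : t = algebraMap (Polynomial k) L Polynomial.X := by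
      change _ = aeval t Polynomial.X
      rw [aeval_X]
    have h' : IsIntegral (Polynomial k) (algebraMap (Polynomial k) L Polynomial.X) :=
      isIntegral_algebraMap
    rwa [← h] at h'
  have hinv : x⁻¹ = -(x ^ (q ^ (s + 3) - 2) + t ^ α * x ^ (q ^ (s + 2) - 2) +
      t ^ β * x ^ (q - 2)) := by
    symm
    apply eq_inv_of_mul_eq_one_left
    have e : ∀ n : ℕ, 2 ≤ n → x ^ (n - 2) * x * x = x ^ n := by
      intro n hn
      rw [← pow_succ, ← pow_succ]
      congr 1
      omega
    have e1 := e (q ^ (s + 3)) (by omega)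
    have e2 := e (q ^ (s + 2)) (by omega)
    have e3 := e q hq2
    apply mul_right_cancel₀ hu
    rw [one_mul]
    linear_combination (-1 : L) * e1 - t ^ α * e2 - t ^ β * e3 - hrel
  have hfin : IsIntegral (Polynomial k) x⁻¹ := by
    rw [hinv]
    exact (((hX'.pow _).add ((ht.pow _).mul (hX'.pow _))).add
      ((ht.pow _).mul (hX'.pow _))).neg
  exact hfin

/-- an element of `k(t)` which is, with its inverse, integral over `k[t]` is a constant -/
theorem const {t : L} (ht : Transcendental k t) {y : L} (hy0 : y ≠ 0)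
    (hy : y ∈ IntermediateField.adjoin k {t})
    (h1 : (aeval t : Polynomial k →ₐ[k] L).toRingHom.IsIntegralElem y)
    (h2 : (aeval t : Polynomial k →ₐ[k] L).toRingHom.IsIntegralElem y⁻¹) :
    ∃ c : k, c ≠ 0 ∧ y = algebraMap k L c := by
  obtain ⟨A, hA⟩ := int_poly ht hy h1
  obtain ⟨B, hB⟩ := int_poly ht (inv_mem hy) h2
  have hAB : A * B = 1 := by
    apply transcendental_iff_injective.1 ht
    rw [map_mul, map_one, ← hA, ← hB, mul_inv_cancel₀ hy0]
  have hu : IsUnit A := IsUnit.of_mul_eq_one B hAB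
  obtain ⟨c, hc, hcA⟩ := Polynomial.isUnit_iff.1 hu
  refine ⟨c, hc.ne_zero, ?_⟩
  rw [hA, ← hcA, aeval_C]

end R33a

open R33a FN3a

theorem r33_thm : S_R33 := by
  intro k F L _ _ _ _ _ _ f q s t X G₀ ρ P hc hf hq hF hQ hR hC hO U hU h0
  classical
  have hq2 : 2 ≤ q := by
    rw [hq]
    calc 2 = 2 ^ 1 := (pow_one 2).symm
      _ ≤ 2 ^ f := Nat.pow_le_pow_right (by norm_num) hf
  have : Finite F := Nat.finite_of_card_ne_zero (by rw [hF]; omega)
  have : Fintype F := Fintype.ofFinite F
  by_contra hne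
  have hx0 : ∀ u : Fin (s + 3) → F, u ≠ 0 → xv k X u ≠ 0 := by
    intro u hu h
    exact hu (hR.ind u h)
  -- orders
  have hneg : ∀ u : Fin (s + 3) → F, u ∉ U → P.ord (xv k X u) < 0 := by
    intro u hu
    have hQz : (4 : ℤ) ≤ (q : ℤ) ^ (s + 1) := by exact_mod_cast hQ
    have hqz : (2 : ℤ) ≤ (q : ℤ) := by exact_mod_cast hq2
    have ht := hO.neg
    by_cases hl : u (Fin.last (s + 2)) = 0
    · have hex : ∃ i, i ≠ 0 ∧ u i ≠ 0 := by
        by_contra hcon
        push Not at hcon
        apply hu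
        have : u = u 0 • (Pi.single 0 1 : Fin (s + 3) → F) := by
          funext i
          rw [Pi.smul_apply, smul_eq_mul]
          by_cases hi : i = 0
          · subst hi
            rw [Pi.single_eq_same, mul_one]
          · rw [Pi.single_eq_of_ne hi, mul_zero]
            exact hcon i hi
        rw [this]
        exact U.smul_mem _ h0
      have h1 := hO.mid u hl hex
      have h2 : ((q : ℤ) ^ (s + 1) - 3) * P.ord t < 0 :=
        mul_neg_of_pos_of_neg (by linarith) ht
      have h3 : (0 : ℤ) ≤ (q : ℤ) * ((q : ℤ) ^ (s + 1) - 1) :=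
        mul_nonneg (by linarith) (by linarith)
      by_contra hcon
      rw [not_lt] at hcon
      have h4 := mul_nonneg h3 hcon
      have h5 : (q : ℤ) * ((q : ℤ) ^ (s + 1) - 1) * P.ord (xv k X u) =
        ((q : ℤ) ^ (s + 1) - 3) * P.ord t := h1
      linarith
    · have h1 := hO.top u hl
      have h2 : ((q : ℤ) ^ (s + 1) - 2) * P.ord t < 0 :=
        mul_neg_of_pos_of_neg (by linarith) ht
      have h3 : (0 : ℤ) ≤ (q : ℤ) * (q : ℤ) ^ (s + 1) :=
        mul_nonneg (by linarith) (by linarith)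
      by_contra hcon
      rw [not_lt] at hcon
      have h4 := mul_nonneg h3 hcon
      have h5 : (q : ℤ) * (q : ℤ) ^ (s + 1) * P.ord (xv k X u) =
        ((q : ℤ) ^ (s + 1) - 2) * P.ord t := h1
      linarith
  -- the product over the complement
  set S : Finset (Fin (s + 3) → F) := univ.filter (fun u => u ∉ U) with hS
  have hSm : ∀ u, u ∈ S ↔ u ∉ U := by
    intro u
    rw [hS, mem_filter]
    exact ⟨fun h => h.2, fun h => ⟨mem_univ _, h⟩⟩
  have hS0 : ∀ u ∈ S, u ≠ 0 := by
    intro u hu h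
    rw [hSm, h] at hu
    exact hu U.zero_mem
  have hinv : ∀ g : G₀, ∀ w ∈ S, g.1.1.mulVec w ∈ S := by
    intro g w hw
    rw [hSm] at hw ⊢
    intro hcon
    apply hw
    have h1 := hU (g⁻¹).1 (g⁻¹).2 _ hcon
    have h2 : (g⁻¹).1.1.mulVec (g.1.1.mulVec w) = w := by
      rw [Matrix.mulVec_mulVec, inv_mul_mat, Matrix.one_mulVec]
    rwa [← h2]
  set y : L := ∏ u ∈ S, xv k X u with hy
  have hy0 : y ≠ 0 := Finset.prod_ne_zero_iff.2 fun u hu => hx0 u (hS0 u hu)
  have hfix : ∀ g : G₀, ρ g y = y := by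
    intro g
    rw [hy, map_prod, prod_congr rfl fun w _ => act_xv hC g w]
    refine Finset.prod_nbij' (fun w => g.1.1.mulVec w) (fun w => (g⁻¹).1.1.mulVec w)
      (fun w hw => hinv g w hw) (fun w hw => hinv g⁻¹ w hw) ?_ ?_ (fun w _ => rfl)
    · intro w _
      rw [Matrix.mulVec_mulVec, inv_mul_mat, Matrix.one_mulVec]
    · intro w _
      rw [Matrix.mulVec_mulVec, mul_inv_mat, Matrix.one_mulVec]
  have hi1 : (aeval t : Polynomial k →ₐ[k] L).toRingHom.IsIntegralElem y := by
    let _ : Algebra (Polynomial k) L := (aeval t : Polynomial k →ₐ[k] L).toRingHom.toAlgebra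
    have h : IsIntegral (Polynomial k) y := by
      rw [hy]
      exact IsIntegral.prod _ fun u hu => (integ hc hf hq hF hR u (hx0 u (hS0 u hu))).1
    exact h
  have hi2 : (aeval t : Polynomial k →ₐ[k] L).toRingHom.IsIntegralElem y⁻¹ := by
    let _ : Algebra (Polynomial k) L := (aeval t : Polynomial k →ₐ[k] L).toRingHom.toAlgebra
    have h : IsIntegral (Polynomial k) y⁻¹ := by
      rw [hy, ← Finset.prod_inv_distrib]
      exact IsIntegral.prod _ fun u hu => (integ hc hf hq hF hR u (hx0 u (hS0 u hu))).2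
    exact h
  obtain ⟨c, hc0, hcy⟩ := const hR.tr hy0 ((hC.cov.fixed y).1 hfix) hi1 hi2
  have hord : P.ord y = 0 := by
    rw [hcy]
    exact P.ord_const c hc0
  rw [hy, TOTaux.ord_prod P S _ fun u hu => hx0 u (hS0 u hu)] at hord
  have hSne : S.Nonempty := by
    by_contra hcon
    rw [Finset.not_nonempty_iff_eq_empty] at hcon
    apply hne
    rw [eq_top_iff]
    intro u _
    by_contra hu
    have := (hSm u).2 hu
    rw [hcon] at this
    exact absurd this (Finset.notMem_empty u)
  have hlt : ∑ u ∈ S, P.ord (xv k X u) < ∑ u ∈ S, (0 : ℤ) :=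
    Finset.sum_lt_sum_of_nonempty hSne fun u hu => hneg u ((hSm u).1 hu)
  rw [Finset.sum_const_zero] at hlt
  linarith

end Pool.CND
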